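import Pool.Agent.W5h93.WC.MurreEqv
import Pool.Agent.W5h93.WC.Torus2

/-!
# Murre's conjectures and cubic hypersurfaces
-/

set_option autoImplicit false
set_option linter.unusedSectionVars false

open CategoryTheory Limits Pretriangulated MonoidalCategory AlgebraicGeometry Pool.Agent.Y116.UV
  Pool.Agent.Z125.UN Pool.Agent.W5h93.EV Pool.Agent.W5h93.EX

universe v u v' u'

namespace Pool.Agent.W5h93.WC

lemma Ret.zero {𝒜 : Type u} [Category.{v} 𝒜] [Preadditive 𝒜] {𝒩 : 𝒜 → Prop} (hR : Ret 𝒩) {A : 𝒜}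
    (hA : 𝒩 A) {Z : 𝒜} (hZ : IsZero Z) : 𝒩 Z :=
  hR Z A 0 0 (by rw [zero_comp]; exact hZ.eq_of_src _ _) hA

section

variable {𝒜 : Type u} [Category.{v} 𝒜] [Preadditive 𝒜] [HasBinaryBiproducts 𝒜] [MonoidalCategory 𝒜]
  {T : ℤ → 𝒜} {S : Type*} {h : S → 𝒜} {Q : S → Prop}

lemma Gen.sum {A B : 𝒜} (hA : Gen T h Q A) (hB : Gen T h Q B) : Gen T h Q (A ⊞ B) :=
  fun V h1 h2 h3 h4 => h1 _ _ (hA V h1 h2 h3 h4) (hB V h1 h2 h3 h4)

lemma Gen.twist {A : 𝒜} (hA : Gen T h Q A) (l : ℤ) : Gen T h Q (A ⊗ T l) :=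
  fun V h1 h2 h3 h4 => h2 _ _ (hA V h1 h2 h3 h4)

lemma Gen.ret : Ret (Gen T h Q) :=
  fun _ _ s r hs hB V h1 h2 h3 h4 => h3 _ _ s r hs (hB V h1 h2 h3 h4)

lemma Gen.of {X : S} (hX : Q X) : Gen T h Q (h X) := fun _ _ _ _ h4 => h4 X hX

end

section

variable {𝒜 : Type u} [Category.{v} 𝒜] [Preadditive 𝒜] [HasZeroObject 𝒜]
  [HasBinaryBiproducts 𝒜] [IsIdempotentComplete 𝒜] {𝒢 : Type u'} [Category.{v'} 𝒢]
  [Preadditive 𝒢] {H : ℤ → 𝒜 ⥤ 𝒢} [hadd : ∀ j, (H j).Additive]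

open ZeroObject in
/-- the class of the strong Murre motives -/
def strongCls {𝒩 : 𝒜 → Prop} (hne : ∃ A, 𝒩 A) (hS : ∀ A B, 𝒩 A → 𝒩 B → 𝒩 (A ⊞ B))
    (hR : Ret 𝒩) : Cls 𝒜 where
  prop := Strong H 𝒩
  nonempty := by
    obtain ⟨A, hA⟩ := hne
    exact ⟨0, Strong.zero (hR.zero hA (isZero_zero 𝒜)) (isZero_zero 𝒜)⟩
  sum A B := Strong.sum (hS A B)
  retract _ _ s r hs hB := Strong.retract hR s r hs hB

end

section

variable {k : Type} [Field k] {𝒜 : Type u} [Category.{v} 𝒜] [Preadditive 𝒜] [HasZeroObject 𝒜]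
  [HasBinaryBiproducts 𝒜] [IsIdempotentComplete 𝒜] [MonoidalCategory 𝒜] [MonoidalPreadditive 𝒜]
  {𝒢 : Type u'} [Category.{v'} 𝒢] [Preadditive 𝒢] {T : ℤ → 𝒜} {H : ℤ → 𝒜 ⥤ 𝒢}
  {W : Sch k → HomotopyCategory 𝒜 (ComplexShape.up ℤ)}

variable (hT : IsTate T) (hH : IsHomology T H) (hW : IsWeightComplex T W) {Q : Sch k → Prop}
  (hQ : IsClass Q) {h : Sch k → 𝒜} (hh : ∀ X, Q X → Nonempty (W X ≅ cpx (h X)))

include hT hH hW hQ hh

/-- from the hypersurfaces to the class -/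
theorem strong_of_bnd [RightRigidCategory 𝒜] {𝒩 : 𝒜 → Prop} (hne : ∃ A, 𝒩 A)
    (hS : ∀ A B, 𝒩 A → 𝒩 B → 𝒩 (A ⊞ B)) (hR : Ret 𝒩) (hN : ∀ A (l : ℤ), 𝒩 A → 𝒩 (A ⊗ T l))
    (h0 : Null (Strong H 𝒩) (W (aff k (LL k))).as) :
    Bnd True fun X : Sch k => Null (Strong H 𝒩) (W X).as := by
  have := hH.additive
  exact bnd_wc (V := strongCls hne hS hR) (fun l A hA => Strong.twist hN hT hH hA l)
    (unit_of_torus (V := strongCls hne hS hR) hW h0) hW

/-- from the class to the hypersurfaces -/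
theorem bnd_of_strong {𝒩 : 𝒜 → Prop} (hne : ∃ A, 𝒩 A)
    (hS : ∀ A B, 𝒩 A → 𝒩 B → 𝒩 (A ⊞ B)) (hR : Ret 𝒩) (hN : ∀ A (l : ℤ), 𝒩 A → 𝒩 (A ⊗ T l))
    (hpt : Q (aff k k)) (h0 : Strong H 𝒩 (h (aff k k))) :
    Bnd True fun X : Sch k => Null (Strong H 𝒩) (W X).as := by
  have := hH.additive
  refine bnd_wc (V := strongCls hne hS hR) (fun l A hA => Strong.twist hN hT hH hA l) ?_ hW
  obtain ⟨e⟩ := hh _ hpt
  obtain ⟨e'⟩ := hW.point
  exact (null_cpx (V := strongCls hne hS hR)).mp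
    (((null_cpx (V := strongCls hne hS hR)).mpr h0).of_iso (e.symm ≪≫ e'))

omit hT hW hQ hh in
lemma null_all (hall : ∀ M : 𝒜, Strong H (fun _ => True) M) (K : CochainComplex 𝒜 ℤ) :
    Null (Strong H fun _ => True) K :=
  ⟨fun _ _ => 0, fun i => ⟨K.X i, 𝟙 _, 𝟙 _ - (K.d i (i + 1) ≫ 0 + 0 ≫ K.d (i - 1) i), hall _,
    Category.id_comp _⟩⟩

/-- **Murre's conjectures for all motives.** -/
theorem murre_all [RightRigidCategory 𝒜] (hG : ∀ M, Gen T h Q M) :
    ((∀ M : 𝒜, Murre T H M) ↔ ∀ F : Form k, Null (Strong H fun _ => True) (W F.hyp).as) ∧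
    (IsPrimeField k → ((∀ M : 𝒜, Murre T H M) ↔
      ForHypergraphs k fun X => Null (Strong H fun _ => True) (W X).as)) := by
  have hadd := hH.additive
  have hne : ∃ A : 𝒜, (fun _ : 𝒜 => True) A := ⟨T 0, trivial⟩
  have hS : ∀ A B : 𝒜, (fun _ : 𝒜 => True) A → (fun _ : 𝒜 => True) B →
    (fun _ : 𝒜 => True) (A ⊞ B) := fun _ _ _ _ => trivial
  have hR : Ret (fun _ : 𝒜 => True) := fun _ _ _ _ _ _ => trivial
  have hN : ∀ (A : 𝒜) (l : ℤ), (fun _ : 𝒜 => True) A → (fun _ : 𝒜 => True) (A ⊗ T l) :=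
    fun _ _ _ => trivial
  -- from all schemes of the class to all motives
  have hall : (∀ X, Q X → Null (Strong H fun _ => True) (W X).as) → ∀ M : 𝒜, Murre T H M := by
    intro h1
    rw [murre_iff hT hH]
    intro M
    refine hG M _ (fun A B hA hB => Strong.sum (fun _ _ => trivial) hA hB)
      (fun A l hA => Strong.twist hN hT hH hA l)
      (fun A B s r hs hB => Strong.retract hR s r hs hB) fun X hX => ?_
    obtain ⟨e⟩ := hh X hX
    exact (null_cpx (V := strongCls hne hS hR)).mp ((h1 X hX).of_iso (V := strongCls hne hS hR) e)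
  refine ⟨⟨fun h1 F => ?_, fun h1 => hall fun X hX => ?_⟩, fun hk => ⟨fun h1 a b c G => ?_,
    fun h1 => hall fun X hX => ?_⟩⟩
  · exact null_all hH ((murre_iff hT hH).mp h1) _
  · have h2 : Null (Strong H fun _ => True) (W (aff k (LL k))).as := by
      obtain ⟨e⟩ := xyz_iso k
      obtain ⟨e'⟩ := hW.iso (X := (xyz k).hyp) (ft_aff True) ⟨e⟩
      exact (h1 (xyz k)).of_iso (V := strongCls hne hS hR) e'
    have h3 := strong_of_bnd hT hH hW hQ hh hne hS hR hN h2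
    exact universal h3.toUni (S := Set.univ) trivial trivial
      (fun a b c U _ => h1 ⟨a, b, c, U⟩) presents_univ X (hQ.ft hX)
  · exact null_all hH ((murre_iff hT hH).mp h1) _
  · have h2 : Null (Strong H fun _ => True) (W (aff k (LL k))).as := by
      obtain ⟨e⟩ := trip_iso k
      obtain ⟨e'⟩ := hW.iso (X := tripS k ({(0, 0, 0)} : Finset (Fin 1 × Fin 1 × Fin 1)))
        (ft_aff True) ⟨e⟩
      exact (h1 1 1 1 {(0, 0, 0)}).of_iso (V := strongCls hne hS hR) e'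
    have h3 := strong_of_bnd hT hH hW hQ hh hne hS hR hN h2
    exact universal_graph (presents_prime hk) h3.toUni h1 X (hQ.ft hX)

/-- **The strong form of Murre's conjectures for motives of dimension at most `n`.** -/
theorem murre_dim [PerfectField k] [RightRigidCategory 𝒜] (n : ℕ) :
    ForForms (fun X => Null (Strong H (DimGen T h Q n)) (W X).as) (n + 2) →
      ∀ M, DimGen T h Q n M → Strong H (DimGen T h Q n) M := by
  have hadd := hH.additive
  intro h1 M hM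
  by_cases hQn : ∃ X, Q X ∧ topologicalKrullDim X.left ≤ n
  swap
  · exact hM _ (fun A B hA hB => Strong.sum (Gen.sum) hA hB)
      (fun A l hA => Strong.twist (fun _ l hA => hA.twist l) hT hH hA l)
      (fun A B s r hs hB => Strong.retract Gen.ret s r hs hB) fun X hX => (hQn ⟨X, hX⟩).elim
  obtain ⟨X₀, hX₀⟩ := hQn
  have hne : ∃ A : 𝒜, DimGen T h Q n A := ⟨h X₀, Gen.of (Q := fun X => Q X ∧
    topologicalKrullDim X.left ≤ n) hX₀⟩
  have h2 : Null (Strong H (DimGen T h Q n)) (W (aff k (LL k))).as := by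
    obtain ⟨e⟩ := xyz_iso k
    obtain ⟨e'⟩ := hW.iso (X := (xyz k).hyp) (ft_aff True) ⟨e⟩
    have h3 : (xyz k).Small (n + 2) := Or.inl (show 1 ≤ n + 2 by omega)
    exact (h1 (xyz k) h3).of_iso (V := strongCls hne (fun _ _ => Gen.sum) Gen.ret) e'
  have h3 := strong_of_bnd hT hH hW hQ hh hne (fun _ _ => Gen.sum) Gen.ret
    (fun _ l hA => hA.twist l) h2
  refine hM _ (fun A B hA hB => Strong.sum (Gen.sum) hA hB)
      (fun A l hA => Strong.twist (fun _ l hA => hA.twist l) hT hH hA l)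
      (fun A B s r hs hB => Strong.retract Gen.ret s r hs hB) fun X hX => ?_
  have h4 := dim_of_forms h3 h1 X (hQ.ft hX.1) hX.2
  obtain ⟨e⟩ := hh X hX.1
  exact (null_cpx (V := strongCls hne (fun _ _ => Gen.sum) Gen.ret)).mp
    (h4.of_iso (V := strongCls hne (fun _ _ => Gen.sum) Gen.ret) e)

/-- **The strong form of Murre's conjectures for motives of dimension at most `n`.** -/
theorem murre_dim_iff [PerfectField k] [RightRigidCategory 𝒜] (hpt : Q (aff k k)) (n : ℕ)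
    (hM : ModelsIn Q n) :
    (∀ M, DimGen T h Q n M → Strong H (DimGen T h Q n) M) ↔
      ForForms (fun X => Null (Strong H (DimGen T h Q n)) (W X).as) (n + 2) := by
  refine ⟨fun h1 => ?_, murre_dim hT hH hW hQ hh n⟩
  have hadd := hH.additive
  have hdim : topologicalKrullDim (aff k k).left ≤ n := by
    have h2 : topologicalKrullDim (aff k k).left = ringKrullDim k :=
      (PrimeSpectrum.topologicalKrullDim_eq_ringKrullDim k)
    rw [h2, ringKrullDim_eq_zero_of_field]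
    exact_mod_cast Nat.zero_le n
  have h0 : DimGen T h Q n (h (aff k k)) := Gen.of (Q := fun X => Q X ∧
    topologicalKrullDim X.left ≤ n) ⟨hpt, hdim⟩
  have hne : ∃ A : 𝒜, DimGen T h Q n A := ⟨_, h0⟩
  have h3 := bnd_of_strong hT hH hW hQ hh hne (fun _ _ => Gen.sum) Gen.ret
    (fun _ l hA => hA.twist l) hpt (h1 _ h0)
  refine (class_iff h3 hQ hM).mp fun X hX hXn => ?_
  obtain ⟨e⟩ := hh X hX
  exact ((null_cpx (V := strongCls hne (fun _ _ => Gen.sum) Gen.ret)).mpr (h1 _ (Gen.of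
    (Q := fun X => Q X ∧ topologicalKrullDim X.left ≤ n) ⟨hX, hXn⟩))).of_iso
    (V := strongCls hne (fun _ _ => Gen.sum) Gen.ret) e.symm

end

end Pool.Agent.W5h93.WC
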