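import Pool.Agent.W5h93.EX.PrimeDefs

/-!
# Weight complexes: definitions
-/

set_option autoImplicit false

open CategoryTheory Limits MonoidalCategory Pretriangulated AlgebraicGeometry Pool.Agent.Y116.UV
  Pool.Agent.W5h93.EV

universe v u

namespace Pool.Agent.W5h93.WC

section

variable {𝒜 : Type u} [Category.{v} 𝒜] [Preadditive 𝒜]

/-- The morphism `f` factors through an object with the property `V`. -/
def Factors (V : 𝒜 → Prop) {A B : 𝒜} (f : A ⟶ B) : Prop :=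
  ∃ (C : 𝒜) (g : A ⟶ C) (h : C ⟶ B), V C ∧ g ≫ h = f

/-- The complex `K` is contractible modulo the objects with the property `V`: there are morphisms
`h : K^i → K^(i-1)` such that all morphisms `id - (d h + h d) : K^i → K^i` factor through objects with
the property `V`. -/
def Null (V : 𝒜 → Prop) (K : CochainComplex 𝒜 ℤ) : Prop :=
  ∃ h : ∀ i j : ℤ, K.X i ⟶ K.X j,
    ∀ i, Factors V (𝟙 (K.X i) - (K.d i (i + 1) ≫ h (i + 1) i + h i (i - 1) ≫ K.d (i - 1) i))

end

section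

variable {𝒜 : Type u} [Category.{v} 𝒜] [Preadditive 𝒜] [HasZeroObject 𝒜]

/-- The object `M` of `𝒜` as a complex in degree zero, in the homotopy category. -/
noncomputable def cpx (M : 𝒜) : HomotopyCategory 𝒜 (ComplexShape.up ℤ) :=
  (HomotopyCategory.quotient _ _).obj ((HomologicalComplex.single 𝒜 (ComplexShape.up ℤ) 0).obj M)

end

section

variable {𝒜 : Type u} [Category.{v} 𝒜] [Preadditive 𝒜] [MonoidalCategory 𝒜]

/-- `T i`, `i ∈ ℤ`, are the Tate objects of the tensor category `𝒜`. -/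
structure IsTate (T : ℤ → 𝒜) : Prop where
  one : Nonempty (T 0 ≅ 𝟙_ 𝒜)
  mul : ∀ i j, Nonempty (T i ⊗ T j ≅ T (i + j))
  hom : ∀ i j, i ≠ j → ∀ f : T i ⟶ T j, f = 0
  endo : ∀ (i) (f : T i ⟶ T i), f ≠ 0 → IsIso f

/-- The tensor power `A ⊗ ⋯ ⊗ A` with `n` factors. -/
def pow (A : 𝒜) : ℕ → 𝒜
  | 0 => 𝟙_ 𝒜
  | n + 1 => pow A n ⊗ A

/-- The tensor power `f ⊗ ⋯ ⊗ f` with `n` factors of the morphism `f`. -/
def powHom {A B : 𝒜} (f : A ⟶ B) : ∀ n : ℕ, pow A n ⟶ pow B n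
  | 0 => 𝟙 _
  | n + 1 => powHom f n ⊗ₘ f

/-- Voevodsky's conjecture for the object `M`: every numerically trivial morphism
`f : T i → M ⊗ T j`, that is, `g ∘ f = 0` for all `g : M ⊗ T j → T i`, is smash-nilpotent, that is,
`f ⊗ ⋯ ⊗ f = 0` for some number of factors. -/
def Voevodsky (T : ℤ → 𝒜) (M : 𝒜) : Prop :=
  ∀ (i j : ℤ) (f : T i ⟶ M ⊗ T j), (∀ g : M ⊗ T j ⟶ T i, f ≫ g = 0) → ∃ n, powHom f n = 0

end

section

variable {k : Type} [Field k] {𝒜 : Type u} [Category.{v} 𝒜] [Preadditive 𝒜] [HasZeroObject 𝒜]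
  [HasBinaryBiproducts 𝒜] [MonoidalCategory 𝒜] [MonoidalPreadditive 𝒜]

/-- The functor `K ↦ K ⊗ M` on the homotopy category of complexes. -/
noncomputable def tens (M : 𝒜) (K : HomotopyCategory 𝒜 (ComplexShape.up ℤ)) :
    HomotopyCategory 𝒜 (ComplexShape.up ℤ) :=
  ((tensorRight M).mapHomotopyCategory (ComplexShape.up ℤ)).obj K

/-- `W X` are the weight complexes with compact support of the separated schemes `X` of finite type
over `k`, complexes in the category `𝒜` (of Chow motives) with the Tate objects `T i`. -/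
structure IsWeightComplex (T : ℤ → 𝒜) (W : Sch k → HomotopyCategory 𝒜 (ComplexShape.up ℤ)) :
    Prop where
  iso : ∀ {X Y : Sch k}, FT True X → Nonempty (X ≅ Y) → Nonempty (W X ≅ W Y)
  localization : ∀ {Z X U : Sch k} (i : Z ⟶ X) (j : U ⟶ X), FT True X → Decomp i j →
    ∃ (f : W Z ⟶ W X) (g : W X ⟶ W U) (h : W U ⟶ (W Z)⟦(1 : ℤ)⟧),
      Triangle.mk f g h ∈ distTriang (HomotopyCategory 𝒜 (ComplexShape.up ℤ))
  bundle : ∀ (A : Type) [CommRing A] [Algebra k A] [Algebra.FiniteType k A] (m : ℕ)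
    (f : Fin m → A) (U : Sch k), Compl f U →
      Nonempty (W (aff k (Jou f)) ≅ tens (T (m - 1)) (W U)) ∧
      Nonempty (W U ≅ tens (T (1 - m)) (W (aff k (Jou f))))
  torus : ∀ (A : Type) [CommRing A] [Algebra k A] [Algebra.FiniteType k A],
    ∃ (n : ℤ) (s : W (aff k A) ⟶ (W (aff k (LaurentPolynomial A)))⟦n⟧)
      (r : (W (aff k (LaurentPolynomial A)))⟦n⟧ ⟶ W (aff k A)), s ≫ r = 𝟙 _
  point : Nonempty (W (aff k k) ≅ cpx (T 0))

end

end Pool.Agent.W5h93.WC
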