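import Pool.Agent.W5h93.WC.MurreSum

/-!
# Murre's conjectures for all motives and strong Murre motives
-/

set_option autoImplicit false
set_option linter.unusedSectionVars false

open CategoryTheory Limits MonoidalCategory

universe v u v' u'

namespace Pool.Agent.W5h93.WC

variable {𝒜 : Type u} [Category.{v} 𝒜] [Preadditive 𝒜] {𝒢 : Type u'} [Category.{v'} 𝒢]
  [Preadditive 𝒢] {H : ℤ → 𝒜 ⥤ 𝒢} [hadd : ∀ j, (H j).Additive]

/-- the trivial decomposition of a pure motive -/
lemma isCK_trivial {M : 𝒜} {d : ℤ} (hM : Pure H d M) :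
    IsCK H M (fun i => if i = d then 𝟙 M else 0) where
  idem i := by
    split_ifs
    · exact Category.comp_id _
    · exact comp_zero
  orth i j hij := by
    beta_reduce
    split_ifs with h1 h2
    · omega
    · exact comp_zero
    · exact zero_comp
    · exact comp_zero
  sum := by
    refine ⟨{d}, fun i hi => ?_, ?_⟩
    · rw [Finset.mem_singleton] at hi
      rw [if_neg hi]
    · rw [Finset.sum_singleton, if_pos rfl]
  kun i j hij := by
    split_ifs with h1
    · exact (hM j (by omega)).eq_of_src _ _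
    · exact (H j).map_zero _ _

/-- a decomposition of `f` -/
lemma eq_sum {M N : 𝒜} {p : ℤ → (M ⟶ M)} {s : Finset ℤ} (hsum : ∑ i ∈ s, p i = 𝟙 M) (f : N ⟶ M) :
    f = ∑ i ∈ s, f ≫ p i := by
  rw [← Preadditive.comp_sum, hsum, Category.comp_id]

/-- no phantoms -/
lemma no_phantom (h : ∀ M : 𝒜, Strong H (fun _ => True) M) {M : 𝒜} (hM : ∀ j, Pure H j M) : IsZero M := by
  obtain ⟨-, p, hp, ht⟩ := h M
  obtain ⟨s, hs, hsum⟩ := hp.sum
  obtain ⟨a, ha⟩ : ∃ a : ℤ, ∀ i ∈ s, i < a := by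
    refine ⟨(∑ i ∈ s, |i|) + 1, fun i hi => ?_⟩
    have := Finset.single_le_sum (f := fun i : ℤ => |i|) (fun _ _ => abs_nonneg _) hi
    have h2 := le_abs_self i
    omega
  rw [IsZero.iff_id_eq_zero, eq_sum hsum (𝟙 M)]
  exact Finset.sum_eq_zero fun i hi => (ht a M (𝟙 M) trivial (hM a)).1 i (ha i hi)

variable [IsIdempotentComplete 𝒜]

/-- morphisms between pure motives -/
lemma hom_pure (h : ∀ M : 𝒜, Strong H (fun _ => True) M) {M N : 𝒜} {i j : ℤ} (hM : Pure H i M) (hN : Pure H j N)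
    (hij : i < j) (f : N ⟶ M) : f = 0 := by
  obtain ⟨-, p, hp, ht⟩ := h M
  obtain ⟨s, hs, hsum⟩ := hp.sum
  have h1 : ∀ l, l ≠ i → p l = 0 := by
    intro l hl
    obtain ⟨L, a, b, h1, h2, h3⟩ := hp.split l
    have h4 : IsZero L := by
      apply no_phantom h
      intro j m _
      rcases eq_or_ne m i with h5 | h5
      · exact h3 m (by omega)
      · rw [IsZero.iff_id_eq_zero, ← (H m).map_id, ← h1, Functor.map_comp,
          (hM m h5).eq_of_tgt ((H m).map a) 0, zero_comp]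
    rw [← h2, h4.eq_of_tgt b 0, zero_comp]
  rw [eq_sum hsum f]
  refine Finset.sum_eq_zero fun l _ => ?_
  rcases eq_or_ne l i with h5 | h5
  · rw [h5]
    exact (ht j N f trivial hN).1 i hij
  · rw [h1 l h5, comp_zero]

variable [MonoidalCategory 𝒜] [MonoidalPreadditive 𝒜] {T : ℤ → 𝒜}

/-- Strong Murre motives satisfy Murre's conjectures. -/
theorem murre_of_strong (hH : IsHomology T H) (h : ∀ M : 𝒜, Strong H (fun _ => True) M) (M : 𝒜) :
    Murre T H M where
  ABD := by
    obtain ⟨-, p, hp, ht⟩ := h M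
    refine ⟨p, hp, fun l f i hi => ?_, fun l f hf => ?_⟩
    · exact (ht (2 * l) (T l) f trivial (hH.tate l)).1 i (by omega)
    · have := (ht (2 * l) (T l) _ trivial (hH.tate l)).2 hf
      rwa [Category.assoc, hp.idem] at this
  C p p' hp hp' l ν f hf i hi := by
    obtain ⟨s, hs, hsum⟩ := hp.sum
    rw [eq_sum hsum f, Preadditive.sum_comp]
    refine Finset.sum_eq_zero fun j _ => ?_
    rcases lt_or_ge j (2 * l + ν) with h1 | h1
    · rw [hf j h1, zero_comp]
    · obtain ⟨N, a, b, h2, h3, h4⟩ := hp.split j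
      obtain ⟨N', a', b', h2', h3', h4'⟩ := hp'.split i
      have h5 := hom_pure h h4' h4 (show i < j by omega) (a ≫ b')
      calc (f ≫ p j) ≫ p' i = f ≫ b ≫ (a ≫ b') ≫ a' := by
            rw [← h3, ← h3']
            simp only [Category.assoc]
        _ = 0 := by rw [h5, zero_comp, comp_zero, comp_zero]

variable [RightRigidCategory 𝒜]

/-- Murre's conjectures for all motives imply that all motives are strong Murre motives. -/
theorem strong_of_murre (hT : IsTate T) (hH : IsHomology T H) (h : ∀ M : 𝒜, Murre T H M) (M : 𝒜) :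
    Strong H (fun _ => True) M := by
  obtain ⟨p, hp, -⟩ := (h M).ABD
  obtain ⟨o⟩ := hT.one
  -- morphisms to pure motives
  have key : ∀ (i j : ℤ) (L N : 𝒜) (f : N ⟶ L), Pure H i L → Pure H j N →
      (i < j → f = 0) ∧ (i = j → Triv H f → f = 0) := by
    intro i j L N f hL hN
    have h1 : Pure H (-j) (Nᘁ) := hH.dual j N _ ⟨inferInstance⟩ hN
    have h2 : Pure H (i - j) (L ⊗ Nᘁ) := by
      have := hH.tensor _ _ _ _ hL h1
      rwa [← sub_eq_add_neg] at this
    obtain ⟨⟨q, hq, hB, hD⟩, hC⟩ := h (L ⊗ Nᘁ)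
    have h3 := isCK_trivial h2
    -- the adjoint morphism
    let g : T 0 ⟶ L ⊗ Nᘁ := o.hom ≫ η_ N (Nᘁ) ≫ f ▷ (Nᘁ)
    have hg : g = 0 → f = 0 := by
      intro h4
      have h5 : η_ N (Nᘁ) ≫ f ▷ (Nᘁ) = 0 := by
        rw [← cancel_epi o.hom]
        rw [comp_zero]
        exact h4
      have h6 : tensorRightHomEquiv (𝟙_ 𝒜) N (Nᘁ) L ((λ_ N).hom ≫ f) = 0 := by
        rw [tensorRightHomEquiv]
        simp only [Equiv.coe_fn_mk]
        rw [comp_whiskerRight]
        have h7 : (𝟙_ 𝒜 ◁ η_ N (Nᘁ)) ≫ (α_ (𝟙_ 𝒜) N (Nᘁ)).inv ≫ (λ_ N).hom ▷ Nᘁ =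
            (λ_ (𝟙_ 𝒜)).hom ≫ η_ N (Nᘁ) := by
          rw [← leftUnitor_tensor_hom, leftUnitor_naturality]
        rw [reassoc_of% h7, h5, comp_zero, comp_zero]
      have h8 : tensorRightHomEquiv (𝟙_ 𝒜) N (Nᘁ) L 0 = 0 := by
        rw [tensorRightHomEquiv]
        simp only [Equiv.coe_fn_mk]
        rw [zeroW, comp_zero, comp_zero, comp_zero]
      have h9 := (tensorRightHomEquiv (𝟙_ 𝒜) N (Nᘁ) L).injective (h6.trans h8.symm)
      rw [← cancel_epi (λ_ N).hom, h9, comp_zero]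
    refine ⟨fun hij => hg ?_, fun hij hf => hg ?_⟩
    · have h4 := hC _ _ hq h3 0 0 g (hB 0 g) (i - j) (by omega)
      beta_reduce at h4
      rw [if_pos rfl, Category.comp_id] at h4
      exact h4
    · have h5 : Triv H g := ((hH.triv _ _ _ _ hf).comp_left _).comp_left _
      have h6 : Fil (l := 0) q 1 g := by
        intro l hl
        rcases eq_or_ne l 0 with h7 | h7
        · rw [h7]
          exact hD 0 g (h5.comp_right _)
        · exact hB 0 g l (by omega)
      have h4 := hC _ _ hq h3 0 1 g h6 (i - j) (by omega)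
      beta_reduce at h4
      rw [if_pos rfl, Category.comp_id] at h4
      exact h4
  refine ⟨trivial, p, hp, fun j N f _ hN => ?_⟩
  have h1 : ∀ i, ∃ (L : 𝒜) (a : L ⟶ M) (b : M ⟶ L), b ≫ a = p i ∧ Pure H i L := by
    intro i
    obtain ⟨L, a, b, -, h2, h3⟩ := hp.split i
    exact ⟨L, a, b, h2, h3⟩
  refine ⟨fun i hi => ?_, fun hf => ?_⟩
  · obtain ⟨L, a, b, h2, h3⟩ := h1 i
    rw [← h2, ← Category.assoc, (key i j L N (f ≫ b) h3 hN).1 hi, zero_comp]
  · obtain ⟨L, a, b, h2, h3⟩ := h1 j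
    rw [← h2, ← Category.assoc, (key j j L N (f ≫ b) h3 hN).2 rfl (hf.comp_right b), zero_comp]

/-- **Murre's conjectures hold for all motives if and only if all motives are strong Murre
motives.** -/
theorem murre_iff (hT : IsTate T) (hH : IsHomology T H) :
    (∀ M : 𝒜, Murre T H M) ↔ ∀ M : 𝒜, Strong H (fun _ => True) M :=
  ⟨strong_of_murre hT hH, murre_of_strong hH⟩

end Pool.Agent.W5h93.WC
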