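import Pool.Agent.W5h93.WC.MurreDefs

/-!
# Direct summands of strong Murre motives
-/

set_option autoImplicit false
set_option linter.unusedSectionVars false

open CategoryTheory Limits MonoidalCategory

universe v u v' u'

namespace Pool.Agent.W5h93.WC

variable {𝒜 : Type u} [Category.{v} 𝒜] [Preadditive 𝒜] {𝒢 : Type u'} [Category.{v'} 𝒢]
  [Preadditive 𝒢] {H : ℤ → 𝒜 ⥤ 𝒢} [hadd : ∀ j, (H j).Additive]

lemma Triv.comp_left {L M N : 𝒜} {f : M ⟶ N} (hf : Triv H f) (e : L ⟶ M) : Triv H (e ≫ f) :=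
  fun j => by rw [Functor.map_comp, hf j, comp_zero]

lemma Triv.comp_right {L M N : 𝒜} {f : M ⟶ N} (hf : Triv H f) (e : N ⟶ L) : Triv H (f ≫ e) :=
  fun j => by rw [Functor.map_comp, hf j, zero_comp]

/-- splitting of projectors -/
lemma IsCK.split [IsIdempotentComplete 𝒜] {M : 𝒜} {p : ℤ → (M ⟶ M)} (hp : IsCK H M p) (i : ℤ) :
    ∃ (N : 𝒜) (a : N ⟶ M) (b : M ⟶ N), a ≫ b = 𝟙 N ∧ b ≫ a = p i ∧ Pure H i N := by
  obtain ⟨N, a, b, h1, h2⟩ := IsIdempotentComplete.idempotents_split M (p i) (hp.idem i)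
  refine ⟨N, a, b, h1, h2, fun j hj => ?_⟩
  rw [IsZero.iff_id_eq_zero, ← (H j).map_id]
  have h3 : 𝟙 N = a ≫ p i ≫ b := by
    rw [← h2, Category.assoc, h1, Category.comp_id, h1]
  rw [h3, Functor.map_comp, Functor.map_comp, hp.kun i j hj, zero_comp, comp_zero]

/-- the class is closed under direct summands -/
def Ret (𝒩 : 𝒜 → Prop) : Prop :=
  ∀ (A B : 𝒜) (s : A ⟶ B) (r : B ⟶ A), s ≫ r = 𝟙 A → 𝒩 B → 𝒩 A

/-- the projectors are triangular -/
lemma tri [IsIdempotentComplete 𝒜] {𝒩 : 𝒜 → Prop} (hR : Ret 𝒩) {M M' : 𝒜} (hM' : 𝒩 M')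
    {q : ℤ → (M' ⟶ M')} (hq : IsCK H M' q) {p : ℤ → (M ⟶ M)}
    (hp : ∀ (j : ℤ) (N : 𝒜) (f : N ⟶ M), 𝒩 N → Pure H j N → (∀ i, i < j → f ≫ p i = 0) ∧
      (Triv H f → f ≫ p j = 0)) (x : M' ⟶ M) {i j : ℤ} (hij : j < i) :
    q i ≫ x ≫ p j = 0 := by
  obtain ⟨N, a, b, h1, h2, h3⟩ := hq.split i
  rw [← h2, Category.assoc]
  have h4 := (hp i N (a ≫ x) (hR _ _ a b h1 hM') h3).1 j hij
  rw [Category.assoc] at h4
  rw [h4, comp_zero]

section

variable [IsIdempotentComplete 𝒜] {𝒩 : 𝒜 → Prop} (hR : Ret 𝒩) {M A : 𝒜} (hM : 𝒩 M)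
  {p : ℤ → (M ⟶ M)} {s : Finset ℤ} (hp : IsCK H M p)
  (hs : ∀ i, i ∉ s → p i = 0) (hsum : ∑ i ∈ s, p i = 𝟙 M)
  (ht : ∀ (j : ℤ) (N : 𝒜) (f : N ⟶ M), 𝒩 N → Pure H j N → (∀ i, i < j → f ≫ p i = 0) ∧
      (Triv H f → f ≫ p j = 0))
  (ι : A ⟶ M) (r : M ⟶ A) (hr : ι ≫ r = 𝟙 A)

/-- the sum of the projectors of index at least `a` -/
noncomputable def up (p : ℤ → (M ⟶ M)) (s : Finset ℤ) (a : ℤ) : M ⟶ M := ∑ i ∈ s with a ≤ i, p i

/-- the sum of the projectors of index less than `a` -/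
noncomputable def dn (p : ℤ → (M ⟶ M)) (s : Finset ℤ) (a : ℤ) : M ⟶ M := ∑ i ∈ s with ¬ a ≤ i, p i

include hsum in
lemma up_add (a : ℤ) : up p s a + dn p s a = 𝟙 M := by
  rw [up, dn, Finset.sum_filter_add_sum_filter_not, hsum]

include hR hM hp ht in
lemma up_dn (x : M ⟶ M) (a : ℤ) : up p s a ≫ x ≫ dn p s a = 0 := by
  rw [up, dn, Preadditive.sum_comp]
  refine Finset.sum_eq_zero fun i hi => ?_
  rw [Preadditive.comp_sum, Preadditive.comp_sum]
  refine Finset.sum_eq_zero fun j hj => ?_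
  rw [Finset.mem_filter] at hi hj
  exact tri hR hM hp ht x (by omega)

include hR hM hp ht hsum in
lemma up_up (x : M ⟶ M) {a b : ℤ} (hab : a ≤ b) : up p s b ≫ x ≫ up p s a = up p s b ≫ x := by
  have h1 : up p s b ≫ x ≫ dn p s a = 0 := by
    rw [up, dn, Preadditive.sum_comp]
    refine Finset.sum_eq_zero fun i hi => ?_
    rw [Preadditive.comp_sum, Preadditive.comp_sum]
    refine Finset.sum_eq_zero fun j hj => ?_
    rw [Finset.mem_filter] at hi hj
    exact tri hR hM hp ht x (by omega)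
  have h2 := congrArg (fun y => up p s b ≫ x ≫ y) (up_add hsum a)
  simp only [Preadditive.comp_add, Category.comp_id] at h2
  rw [h1, add_zero] at h2
  exact h2

/-- the operator on the summand -/
noncomputable def gg (p : ℤ → (M ⟶ M)) (s : Finset ℤ) (ι : A ⟶ M) (r : M ⟶ A) (a : ℤ) : A ⟶ A :=
  ι ≫ up p s a ≫ r

include hR hM hp ht hsum hr in
lemma gg_gg {a b : ℤ} (hab : a ≤ b) : gg p s ι r b ≫ gg p s ι r a = gg p s ι r b := by
  have h1 := up_up hR hM hp hsum ht (r ≫ ι) hab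
  calc gg p s ι r b ≫ gg p s ι r a = ι ≫ (up p s b ≫ (r ≫ ι) ≫ up p s a) ≫ r := by
        simp only [gg, Category.assoc]
    _ = ι ≫ (up p s b ≫ (r ≫ ι)) ≫ r := by rw [h1]
    _ = gg p s ι r b := by
        simp only [gg, Category.assoc]
        rw [hr, Category.comp_id]

/-- successive projection -/
noncomputable def cc (p : ℤ → (M ⟶ M)) (s : Finset ℤ) (ι : A ⟶ M) (r : M ⟶ A) (a : ℤ) :
    ℕ → (A ⟶ A)
  | 0 => 𝟙 A
  | n + 1 => cc p s ι r a n ≫ gg p s ι r (a + (n + 1 : ℕ))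

variable {a₀ : ℤ} (ha : ∀ i ∈ s, a₀ ≤ i)

include ha hsum in
lemma up_low {a : ℤ} (h : a ≤ a₀) : up p s a = 𝟙 M := by
  rw [up, Finset.filter_true_of_mem fun i hi => h.trans (ha i hi), hsum]

include hR hM hp ht hsum hr ha in
lemma cc_gg (n : ℕ) {a : ℤ} (h : a ≤ a₀ + n) :
    cc p s ι r a₀ n ≫ gg p s ι r a = cc p s ι r a₀ n := by
  cases n with
  | zero =>
    rw [cc, Category.id_comp, gg, up_low hsum ha (by simpa using h), Category.id_comp, hr]
  | succ n =>
    rw [cc, Category.assoc, gg_gg hR hM hp hsum ht ι r hr h]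

include hR hM hp ht hsum hr ha in
lemma cc_right {n m : ℕ} (h : n ≤ m) :
    cc p s ι r a₀ m ≫ cc p s ι r a₀ n = cc p s ι r a₀ m := by
  induction n with
  | zero => rw [cc, Category.comp_id]
  | succ n ih =>
    rw [cc, ← Category.assoc, ih (by omega), cc_gg hR hM hp hsum ht ι r hr ha]
    push_cast
    omega

include hR hM hp ht hsum hr ha in
lemma cc_left {n m : ℕ} (h : n ≤ m) :
    cc p s ι r a₀ n ≫ cc p s ι r a₀ m = cc p s ι r a₀ m := by
  induction m, h using Nat.le_induction with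
  | base => exact cc_right hR hM hp hsum ht ι r hr ha le_rfl
  | succ m _ ih => rw [cc, ← Category.assoc, ih]

/-- the projectors of the summand -/
noncomputable def qq (p : ℤ → (M ⟶ M)) (s : Finset ℤ) (ι : A ⟶ M) (r : M ⟶ A) (a₀ : ℤ) (i : ℤ) :
    A ⟶ A :=
  if a₀ ≤ i then cc p s ι r a₀ (i - a₀).toNat - cc p s ι r a₀ ((i - a₀).toNat + 1) else 0

include hR hM hp ht hsum hr ha in
lemma qq_idem (i : ℤ) : qq p s ι r a₀ i ≫ qq p s ι r a₀ i = qq p s ι r a₀ i := by
  rw [qq]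
  split_ifs
  · simp only [Preadditive.sub_comp, Preadditive.comp_sub]
    rw [cc_right hR hM hp hsum ht ι r hr ha le_rfl, cc_right hR hM hp hsum ht ι r hr ha le_rfl,
      cc_right hR hM hp hsum ht ι r hr ha (Nat.le_succ _), cc_left hR hM hp hsum ht ι r hr ha (Nat.le_succ _)]
    abel
  · rw [comp_zero]

include hR hM hp ht hsum hr ha in
lemma qq_orth (i j : ℤ) (hij : i ≠ j) : qq p s ι r a₀ i ≫ qq p s ι r a₀ j = 0 := by
  rw [qq, qq]
  split_ifs with h1 h2
  · simp only [Preadditive.sub_comp, Preadditive.comp_sub]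
    rcases lt_or_gt_of_ne hij with h | h
    · have h3 : (i - a₀).toNat + 1 ≤ (j - a₀).toNat := by omega
      rw [cc_left hR hM hp hsum ht ι r hr ha (show (i - a₀).toNat ≤ (j - a₀).toNat by omega),
        cc_left hR hM hp hsum ht ι r hr ha (show (i - a₀).toNat ≤ (j - a₀).toNat + 1 by omega),
        cc_left hR hM hp hsum ht ι r hr ha (show (i - a₀).toNat + 1 ≤ (j - a₀).toNat by omega),
        cc_left hR hM hp hsum ht ι r hr ha (show (i - a₀).toNat + 1 ≤ (j - a₀).toNat + 1 by omega)]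
      abel
    · rw [cc_right hR hM hp hsum ht ι r hr ha (show (j - a₀).toNat ≤ (i - a₀).toNat by omega),
        cc_right hR hM hp hsum ht ι r hr ha (show (j - a₀).toNat + 1 ≤ (i - a₀).toNat by omega),
        cc_right hR hM hp hsum ht ι r hr ha (show (j - a₀).toNat ≤ (i - a₀).toNat + 1 by omega),
        cc_right hR hM hp hsum ht ι r hr ha (show (j - a₀).toNat + 1 ≤ (i - a₀).toNat + 1 by omega)]
      abel
  · rw [comp_zero]
  · rw [zero_comp]
  · rw [zero_comp]

include hp hsum in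
lemma map_up_of_le {a j : ℤ} (h : a ≤ j) : (H j).map (up p s a) = 𝟙 _ := by
  have h1 := congrArg (H j).map (up_add hsum a)
  rw [Functor.map_add, (H j).map_id] at h1
  have h2 : (H j).map (dn p s a) = 0 := by
    rw [dn, Functor.map_sum]
    refine Finset.sum_eq_zero fun i hi => hp.kun i j ?_
    rw [Finset.mem_filter] at hi
    omega
  rwa [h2, add_zero] at h1

include hp in
lemma map_up_of_lt {a j : ℤ} (h : j < a) : (H j).map (up p s a) = 0 := by
  rw [up, Functor.map_sum]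
  refine Finset.sum_eq_zero fun i hi => hp.kun i j ?_
  rw [Finset.mem_filter] at hi
  omega

include hp hsum hr in
lemma map_gg_of_le {a j : ℤ} (h : a ≤ j) : (H j).map (gg p s ι r a) = 𝟙 _ := by
  rw [gg, Functor.map_comp, Functor.map_comp, map_up_of_le hp hsum h, Category.id_comp,
    ← Functor.map_comp, hr, (H j).map_id]

include hp in
lemma map_gg_of_lt {a j : ℤ} (h : j < a) : (H j).map (gg p s ι r a) = 0 := by
  rw [gg, Functor.map_comp, Functor.map_comp, map_up_of_lt hp h, zero_comp, comp_zero]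

include hp hsum hr in
lemma map_cc_of_le {n : ℕ} {j : ℤ} (h : a₀ + n ≤ j) : (H j).map (cc p s ι r a₀ n) = 𝟙 _ := by
  induction n with
  | zero => rw [cc, (H j).map_id]
  | succ n ih =>
    rw [cc, Functor.map_comp, ih (by push_cast at h; omega),
      map_gg_of_le hp hsum ι r hr (by exact_mod_cast h), Category.comp_id]

include hp in
lemma map_cc_of_lt {n : ℕ} {j : ℤ} (h : j < a₀ + (n + 1 : ℕ)) :
    (H j).map (cc p s ι r a₀ (n + 1)) = 0 := by
  rw [cc, Functor.map_comp, map_gg_of_lt hp ι r h, comp_zero]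

include hp hsum hr ha in
lemma map_id_of_lt {j : ℤ} (h : j < a₀) : (H j).map (𝟙 A) = 0 := by
  have h1 := map_up_of_lt (s := s) hp h
  rw [up_low hsum ha le_rfl] at h1
  have h2 : 𝟙 A = ι ≫ 𝟙 M ≫ r := by rw [Category.id_comp, hr]
  rw [h2, Functor.map_comp, Functor.map_comp, h1, zero_comp, comp_zero]

include hp hsum hr ha in
lemma qq_kun (i j : ℤ) (hij : j ≠ i) : (H j).map (qq p s ι r a₀ i) = 0 := by
  rw [qq]
  split_ifs with h1
  · rw [Functor.map_sub]
    rcases lt_or_gt_of_ne hij with h | h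
    · -- `j < i`
      rw [map_cc_of_lt hp ι r (by omega), sub_zero]
      rcases Nat.eq_zero_or_pos (i - a₀).toNat with h2 | h2
      · rw [h2, cc]
        exact map_id_of_lt hp hsum ι r hr ha (by omega)
      · obtain ⟨n, hn⟩ : ∃ n, (i - a₀).toNat = n + 1 := ⟨(i - a₀).toNat - 1, by omega⟩
        rw [hn]
        exact map_cc_of_lt hp ι r (by omega)
    · rw [map_cc_of_le hp hsum ι r hr (by omega), map_cc_of_le hp hsum ι r hr (by omega), sub_self]
  · exact (H j).map_zero _ _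

lemma up_eq_zero {a : ℤ} (h : ∀ i ∈ s, i < a) : up p s a = 0 := by
  rw [up]
  refine Finset.sum_eq_zero fun i hi => ?_
  rw [Finset.mem_filter] at hi
  exact absurd (h i hi.1) (by omega)

include hR hM hp hsum ht hr ha in
lemma isCK_qq : IsCK H A (qq p s ι r a₀) where
  idem := qq_idem hR hM hp hsum ht ι r hr ha
  orth := qq_orth hR hM hp hsum ht ι r hr ha
  kun := qq_kun hp hsum ι r hr ha
  sum := by
    obtain ⟨N, hN⟩ : ∃ N : ℕ, ∀ i ∈ s, i < a₀ + N := by
      refine ⟨(∑ i ∈ s, (i - a₀).toNat) + 1, fun i hi => ?_⟩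
      have := Finset.single_le_sum (f := fun i : ℤ => (i - a₀).toNat) (fun _ _ => Nat.zero_le _) hi
      omega
    have hc : ∀ n, N < n + 1 → cc p s ι r a₀ (n + 1) = 0 := by
      intro n hn
      rw [cc, gg, up_eq_zero, zero_comp, comp_zero, comp_zero]
      intro i hi
      have := hN i hi
      omega
    refine ⟨(Finset.range (N + 1)).image fun n : ℕ => a₀ + n, fun i hi => ?_, ?_⟩
    · rw [qq]
      split_ifs with h1
      · have h2 : N + 1 ≤ (i - a₀).toNat := by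
          by_contra hcon
          apply hi
          rw [Finset.mem_image]
          exact ⟨(i - a₀).toNat, Finset.mem_range.mpr (by omega), by omega⟩
        obtain ⟨n, hn⟩ : ∃ n, (i - a₀).toNat = n + 1 := ⟨(i - a₀).toNat - 1, by omega⟩
        rw [hn, hc n (by omega), hc (n + 1) (by omega), sub_zero]
      · rfl
    · rw [Finset.sum_image (fun x _ y _ h => by simpa using h)]
      have h1 : ∀ n : ℕ, qq p s ι r a₀ (a₀ + n) = cc p s ι r a₀ n - cc p s ι r a₀ (n + 1) := by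
        intro n
        rw [qq, if_pos (by omega), show (a₀ + (n : ℤ) - a₀).toNat = n by omega]
      rw [Finset.sum_congr rfl fun n _ => h1 n, Finset.sum_range_sub', hc N (by omega), sub_zero]
      rfl

include hsum in
lemma test_up {N : 𝒜} {a : ℤ} {f : N ⟶ M} (h : ∀ i, i < a → f ≫ p i = 0) :
    f ≫ up p s a = f := by
  have h1 := congrArg (fun y => f ≫ y) (up_add hsum a)
  simp only [Preadditive.comp_add, Category.comp_id] at h1
  have h2 : f ≫ dn p s a = 0 := by
    rw [dn, Preadditive.comp_sum]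
    refine Finset.sum_eq_zero fun i hi => h i ?_
    rw [Finset.mem_filter] at hi
    omega
  rwa [h2, add_zero] at h1

include hsum hr in
lemma test_cc {N : 𝒜} {b : ℤ} {f : N ⟶ A} (h : ∀ i, i < b → (f ≫ ι) ≫ p i = 0) {n : ℕ}
    (hn : a₀ + n ≤ b) : f ≫ cc p s ι r a₀ n = f := by
  induction n with
  | zero => rw [cc, Category.comp_id]
  | succ n ih =>
    rw [cc, ← Category.assoc, ih (by push_cast at hn; omega), gg, ← Category.assoc,
      ← Category.assoc, test_up hsum (fun i hi => h i (lt_of_lt_of_le hi hn)),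
      Category.assoc, hr, Category.comp_id]

end

/-- A direct summand of a strong Murre motive is a strong Murre motive. -/
theorem Strong.retract [IsIdempotentComplete 𝒜] {𝒩 : 𝒜 → Prop} (hR : Ret 𝒩) {A M : 𝒜} (ι : A ⟶ M)
    (r : M ⟶ A) (hr : ι ≫ r = 𝟙 A) (h : Strong H 𝒩 M) : Strong H 𝒩 A := by
  obtain ⟨hM, p, hp, ht⟩ := h
  obtain ⟨s, hs, hsum⟩ := hp.sum
  obtain ⟨a₀, ha⟩ : ∃ a₀ : ℤ, ∀ i ∈ s, a₀ ≤ i := by
    refine ⟨-∑ i ∈ s, |i|, fun i hi => ?_⟩
    have := Finset.single_le_sum (f := fun i : ℤ => |i|) (fun _ _ => abs_nonneg _) hi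
    have h2 := neg_abs_le i
    omega
  refine ⟨hR A M ι r hr hM, qq p s ι r a₀, isCK_qq hR hM hp hsum ht ι r hr ha,
    fun j N f hN' hN => ?_⟩
  have h1 : ∀ i, i < j → (f ≫ ι) ≫ p i = 0 := (ht j N (f ≫ ι) hN' hN).1
  refine ⟨fun i hi => ?_, fun hf => ?_⟩
  · rw [qq]
    split_ifs with h2
    · rw [Preadditive.comp_sub, test_cc hsum ι r hr h1 (by omega),
        test_cc hsum ι r hr h1 (by push_cast; omega), sub_self]
    · rw [comp_zero]
  · have h3 : ∀ i, i < j + 1 → (f ≫ ι) ≫ p i = 0 := by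
      intro i hi
      rcases lt_or_eq_of_le (Int.lt_add_one_iff.mp hi) with h4 | h4
      · exact h1 i h4
      · rw [h4]
        exact (ht j N (f ≫ ι) hN' hN).2 (hf.comp_right ι)
    rw [qq]
    split_ifs with h2
    · rw [Preadditive.comp_sub, test_cc hsum ι r hr h3 (by omega),
        test_cc hsum ι r hr h3 (by push_cast; omega), sub_self]
    · rw [comp_zero]

end Pool.Agent.W5h93.WC
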