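import Pool.Agent.W5h93.WC.Defs

/-!
# The quotient by the morphisms which factor through a class of objects
-/

set_option autoImplicit false
set_option linter.unusedSectionVars false

open CategoryTheory Limits Pretriangulated ZeroObject

universe v u

namespace Pool.Agent.W5h93.WC

variable {𝒜 : Type u} [Category.{v} 𝒜] [Preadditive 𝒜]

/-- a class of objects which is closed under sums and retracts -/
structure Cls (𝒜 : Type u) [Category.{v} 𝒜] [Preadditive 𝒜] [HasBinaryBiproducts 𝒜] where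
  /-- the class -/
  prop : 𝒜 → Prop
  nonempty : ∃ A, prop A
  sum : ∀ A B, prop A → prop B → prop (A ⊞ B)
  retract : ∀ A B (s : A ⟶ B) (r : B ⟶ A), s ≫ r = 𝟙 A → prop B → prop A

variable [HasBinaryBiproducts 𝒜] (V : Cls 𝒜)

variable {V} in
lemma Factors.add {A B : 𝒜} {f g : A ⟶ B} (hf : Factors V.prop f) (hg : Factors V.prop g) :
    Factors V.prop (f + g) := by
  obtain ⟨C, a, b, hC, rfl⟩ := hf
  obtain ⟨D, c, d, hD, rfl⟩ := hg
  exact ⟨C ⊞ D, biprod.lift a c, biprod.desc b d, V.sum _ _ hC hD, by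
    rw [biprod.lift_desc]⟩

lemma Factors.neg {P : 𝒜 → Prop} {A B : 𝒜} {f : A ⟶ B} (hf : Factors P f) : Factors P (-f) := by
  obtain ⟨C, a, b, hC, rfl⟩ := hf
  exact ⟨C, -a, b, hC, by simp⟩

lemma Factors.comp_left {P : 𝒜 → Prop} {A B D : 𝒜} {f : A ⟶ B} (hf : Factors P f) (e : D ⟶ A) :
    Factors P (e ≫ f) := by
  obtain ⟨C, a, b, hC, rfl⟩ := hf
  exact ⟨C, e ≫ a, b, hC, by simp⟩

lemma Factors.comp_right {P : 𝒜 → Prop} {A B D : 𝒜} {f : A ⟶ B} (hf : Factors P f) (e : B ⟶ D) :
    Factors P (f ≫ e) := by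
  obtain ⟨C, a, b, hC, rfl⟩ := hf
  exact ⟨C, a, b ≫ e, hC, by simp⟩

lemma factors_zero (A B : 𝒜) : Factors V.prop (0 : A ⟶ B) := by
  obtain ⟨C, hC⟩ := V.nonempty
  exact ⟨C, 0, 0, hC, by simp⟩

variable {V} in
lemma of_factors_id {A : 𝒜} (h : Factors V.prop (𝟙 A)) : V.prop A := by
  obtain ⟨C, a, b, hC, h⟩ := h
  exact V.retract A C a b h hC

/-- the relation -/
def rel : HomRel 𝒜 := fun _ _ f g => Factors V.prop (f - g)

instance : Congruence (rel V) where
  equivalence :=
    { refl := fun f => by rw [rel, sub_self]; exact factors_zero V _ _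
      symm := fun {f g} h => by
        have := Factors.neg h
        rwa [neg_sub] at this
      trans := fun {f g l} h h' => by
        have := Factors.add h h'
        rwa [sub_add_sub_cancel] at this }
  comp_left f _ _ h := by
    rw [rel, ← Preadditive.comp_sub]
    exact Factors.comp_left h f
  comp_right g h := by
    rw [rel, ← Preadditive.sub_comp]
    exact Factors.comp_right h g

lemma rel_add : ∀ ⦃X Y : 𝒜⦄ (f₁ f₂ g₁ g₂ : X ⟶ Y) (_ : rel V f₁ f₂) (_ : rel V g₁ g₂),
    rel V (f₁ + g₁) (f₂ + g₂) := by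
  intro X Y f₁ f₂ g₁ g₂ h h'
  have := Factors.add h h'
  rw [rel]
  rwa [add_sub_add_comm]

instance : Preadditive (Quotient (rel V)) := Quotient.preadditive (rel V) (rel_add V)

/-- the functor to the quotient -/
abbrev qf : 𝒜 ⥤ Quotient (rel V) := Quotient.functor (rel V)

instance : (qf V).Additive := Quotient.functor_additive (rel V) (rel_add V)

lemma qf_map_eq_iff {A B : 𝒜} (f g : A ⟶ B) :
    (qf V).map f = (qf V).map g ↔ Factors V.prop (f - g) :=
  Quotient.functor_map_eq_iff (rel V) f g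

lemma qf_map_eq_zero_iff {A B : 𝒜} (f : A ⟶ B) : (qf V).map f = 0 ↔ Factors V.prop f := by
  rw [← (qf V).map_zero, qf_map_eq_iff, sub_zero]

instance : HasBinaryBiproducts (Quotient (rel V)) where
  has_binary_biproduct := by
    rintro ⟨X⟩ ⟨Y⟩
    have : PreservesBinaryBiproducts (qf V) := preservesBinaryBiproducts_of_preservesBiproducts _
    exact ⟨⟨⟨(qf V).mapBinaryBicone (BinaryBiproduct.bicone X Y),
      isBinaryBilimitOfPreserves (qf V) (BinaryBiproduct.isBilimit X Y)⟩⟩⟩

instance [HasZeroObject 𝒜] : HasZeroObject (Quotient (rel V)) :=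
  ⟨⟨(qf V).obj 0, (IsZero.iff_id_eq_zero _).mpr (by
    rw [← (qf V).map_id, (IsZero.iff_id_eq_zero _).mp (isZero_zero 𝒜), (qf V).map_zero])⟩⟩

/-- the functor on the homotopy categories -/
noncomputable abbrev qh : HomotopyCategory 𝒜 (ComplexShape.up ℤ) ⥤
    HomotopyCategory (Quotient (rel V)) (ComplexShape.up ℤ) :=
  (qf V).mapHomotopyCategory (ComplexShape.up ℤ)

end Pool.Agent.W5h93.WC
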